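import Mathlib
import Pool.Agent.Helper292.UG

set_option autoImplicit false

namespace Pool.Agent.Results.MP_93862b_gt.SmallCharacter

/-- Let `A` be an infinite set carrying an almost disjoint family of `γ` sets. Then every uniform
ultrafilter `p` on `A` whose character in the space of uniform ultrafilters is at most the
successor of the cardinality of `A` lies on the boundary of each of `γ` pairwise disjoint open
sets in the space of uniform ultrafilters. -/
theorem result (A : Type) [Infinite A] (γ : Cardinal.{0})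
    (hγ : ∃ F : Set (Set A), Cardinal.mk F = γ ∧
        (∀ s ∈ F, Cardinal.mk s = Cardinal.mk A) ∧
        F.Pairwise (fun s t => Cardinal.mk (s ∩ t : Set A) < Cardinal.mk A))
    (p : {u : Ultrafilter A // ∀ s ∈ u, Cardinal.mk s = Cardinal.mk A})
    (hp : ∃ 𝒲 : Set (Set {u : Ultrafilter A // ∀ s ∈ u, Cardinal.mk s = Cardinal.mk A}),
        Cardinal.mk 𝒲 ≤ Order.succ (Cardinal.mk A) ∧ (∀ W ∈ 𝒲, W ∈ nhds p) ∧
          ∀ V ∈ nhds p, ∃ W ∈ 𝒲, W ⊆ V) :
    ∃ 𝒪 : Set (Set {u : Ultrafilter A // ∀ s ∈ u, Cardinal.mk s = Cardinal.mk A}),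
      Cardinal.mk 𝒪 = γ ∧ 𝒪.PairwiseDisjoint id ∧
        (∀ O ∈ 𝒪, IsOpen O ∧ p ∈ frontier O) := by
  obtain ⟨F, hF0, hF1, hF2⟩ := hγ
  obtain ⟨𝒲, hW0, hW1, hW2⟩ := hp
  obtain ⟨O, hO1, hO2, hO3⟩ := Pool.Agent.Helper292.UG.gamma_point
    (Cardinal.aleph0_le_mk A) p F hF1 hF2 𝒲 hW0 hW1 hW2
  have hinj : Function.Injective O := by
    intro i j hij
    by_contra hne
    have h1 : Disjoint (O i) (O j) := hO2 hne
    rw [← hij, disjoint_self] at h1
    have h2 := hO3 i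
    rw [h1] at h2
    simp at h2
  refine ⟨Set.range O, ?_, ?_, ?_⟩
  · rw [Cardinal.mk_range_eq O hinj, hF0]
  · rintro _ ⟨i, rfl⟩ _ ⟨j, rfl⟩ hne
    exact hO2 (fun h => hne (by rw [h]))
  · rintro _ ⟨i, rfl⟩
    exact ⟨hO1 i, hO3 i⟩

/-- If the power set of `A` has the successor cardinality then the hypothesis on the character
holds at every point, so the conclusion holds at every point. -/
theorem all_points (A : Type) [Infinite A]
    (h : Order.succ (Cardinal.mk A) = 2 ^ Cardinal.mk A) (γ : Cardinal.{0})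
    (hγ : ∃ F : Set (Set A), Cardinal.mk F = γ ∧
        (∀ s ∈ F, Cardinal.mk s = Cardinal.mk A) ∧
        F.Pairwise (fun s t => Cardinal.mk (s ∩ t : Set A) < Cardinal.mk A))
    (p : {u : Ultrafilter A // ∀ s ∈ u, Cardinal.mk s = Cardinal.mk A}) :
    ∃ 𝒪 : Set (Set {u : Ultrafilter A // ∀ s ∈ u, Cardinal.mk s = Cardinal.mk A}),
      Cardinal.mk 𝒪 = γ ∧ 𝒪.PairwiseDisjoint id ∧
        (∀ O ∈ 𝒪, IsOpen O ∧ p ∈ frontier O) := by
  refine result A γ hγ p ⟨Set.range (fun s : {s : Set A // s ∈ p.1} =>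
    {u : {u : Ultrafilter A // ∀ s ∈ u, Cardinal.mk s = Cardinal.mk A} | s.1 ∈ u.1}), ?_, ?_, ?_⟩
  · refine Cardinal.mk_range_le.trans ((Cardinal.mk_subtype_le _).trans ?_)
    rw [Cardinal.mk_set, h]
  · rintro _ ⟨s, rfl⟩
    exact IsOpen.mem_nhds
      ((ultrafilter_isOpen_basic s.1).preimage continuous_subtype_val) s.2
  · intro V hV
    obtain ⟨O, hOV, hO, hpO⟩ := mem_nhds_iff.1 hV
    obtain ⟨V', hV', rfl⟩ := isOpen_induced_iff.1 hO
    obtain ⟨_, ⟨s, rfl⟩, hpW, hWV⟩ :=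
      ultrafilterBasis_is_basis.exists_subset_of_mem_open hpO hV'
    exact ⟨_, ⟨⟨s, hpW⟩, rfl⟩, fun u hu => hOV (hWV hu)⟩

end Pool.Agent.Results.MP_93862b_gt.SmallCharacter
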